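import Pool.Agent.Helper93.KS.All5

/-!
# For every large `n` there are many `k ≤ n / 2` such that `k (n - k) - 1` has at most five prime factors

The multiples `k ≤ n / 2` of `30` have the level of distribution `n ^ (1 - ε)` for the values `k (n - k) - 1 < n ^ 2`. The number of roots of
`k (n - k) - 1` modulo `p` is `0`, `1` or `2`, and nothing is known about the distribution of the primes with two roots in terms of `n`
(the discriminant `n ^ 2 - 4` is as large as the square of the length of the interval). So the sieve is used in
dimension at most two, with weights which depend only on boxes for the sizes of the primes, uniformly in the local densities, and combined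
with the fundamental lemma for small primes and Richert's weights.
-/

namespace Pool.Agent.Helper93.Kept.EveryLargeN

open Finset

open Classical in
/-- the integers `1 ≤ k ≤ n / 2` for which `k (n - k) - 1` is larger than `1` and has at most five prime factors -/
noncomputable def ks (n : ℕ) : Finset ℕ :=
  (Icc 1 (n / 2)).filter (fun k => 2 ≤ k * (n - k) - 1 ∧ (k * (n - k) - 1).primeFactorsList.length ≤ 5)

/-- There are `c > 0` and `N₀` such that for every `n ≥ N₀` there are at least `c n / (log n) ^ 3` integers `k`, `1 ≤ k ≤ n / 2`, for which
`k (n - k) - 1 > 1` has at most five prime factors, counted with multiplicity. -/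
theorem result : ∃ c : ℝ, 0 < c ∧ ∃ N₀ : ℕ, ∀ n : ℕ, N₀ ≤ n →
    c * n / Real.log n ^ 3 ≤ ((ks n).card : ℝ) :=
  Pool.Agent.Helper93.KS.pFin5

end Pool.Agent.Helper93.Kept.EveryLargeN
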